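import Pool.Agent.Helper33.HM.Tools

/-!
# HM-T1: names of functions
-/

set_option autoImplicit false
set_option linter.unusedSectionVars false

namespace Pool.Agent.Helper33.HM

universe u

section T1

variable {B : Type u} [CompleteBooleanAlgebra B] {S T : Set B}

theorem IsFn.mono_le {g : ℕ → ℕ → B} (hg : IsFn S g) (n : ℕ) {k l : ℕ} (h : k ≤ l) :
    g n k ≤ g n l :=
  monotone_nat_of_le_succ (hg.mono n) h

theorem IsFn.mono_set {g : ℕ → ℕ → B} (h : S ⊆ T) (hg : IsFn S g) : IsFn T g :=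
  ⟨fun n k => h (hg.mem n k), hg.mono, hg.tot⟩

theorem isFn_maxF (hS : IsSub S) {f g : ℕ → ℕ → B} (hf : IsFn S f) (hg : IsFn S g) :
    IsFn S (maxF f g) := by
  refine ⟨fun n k => hS.inf_mem (hf.mem n k) (hg.mem n k),
    fun n k => inf_le_inf (hf.mono n k) (hg.mono n k), fun n => ?_⟩
  have h := iSup_inf_of_monotone (monotone_nat_of_le_succ (hf.mono n))
    (monotone_nat_of_le_succ (hg.mono n))
  show ⨆ k, f n k ⊓ g n k = ⊤
  rw [h, hf.tot, hg.tot, inf_top_eq]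

theorem h28_natN_mono (m k : ℕ) : (natN m : ℕ → B) k ≤ natN m (k + 1) := by
  unfold natN
  split_ifs with h1 h2
  · exact le_rfl
  · omega
  · exact bot_le
  · exact le_rfl

theorem h28_natN_tot (m : ℕ) : ⨆ k, (natN m : ℕ → B) k = ⊤ := by
  apply top_unique
  refine le_trans ?_ (le_iSup _ m)
  simp [natN]

theorem isFn_chk (hS : IsSub S) (u : ℕ → ℕ) : IsFn S (chk u) := by
  refine ⟨fun n k => ?_, fun n k => h28_natN_mono _ _, fun n => h28_natN_tot _⟩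
  exact hS.ite_mem hS.top_mem hS.bot_mem

theorem leF_mem (hS : IsSub S) {f g : ℕ → ℕ → B} (hf : IsFn S f) (hg : IsFn S g) :
    leF f g ∈ S :=
  hS.iInf_mem fun n => hS.iInf_mem fun k => hS.himp_mem (hg.mem n k) (hf.mem n k)

theorem leF_self (f : ℕ → ℕ → B) : leF f f = ⊤ := by
  simp [leF]

theorem h28_leF_inf_le (f g : ℕ → ℕ → B) (n k : ℕ) : leF f g ⊓ g n k ≤ f n k := by
  rw [← le_himp_iff]
  exact (iInf_le _ n).trans (iInf_le _ k)

theorem h28_le_leF_iff {f g : ℕ → ℕ → B} {b : B} : b ≤ leF f g ↔ ∀ n k, b ⊓ g n k ≤ f n k := by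
  unfold leF
  simp only [le_iInf_iff, le_himp_iff]

theorem leF_trans (f g h : ℕ → ℕ → B) : leF f g ⊓ leF g h ≤ leF f h := by
  rw [h28_le_leF_iff]
  intro n k
  calc leF f g ⊓ leF g h ⊓ h n k = leF f g ⊓ (leF g h ⊓ h n k) := inf_assoc _ _ _
    _ ≤ leF f g ⊓ g n k := inf_le_inf_left _ (h28_leF_inf_le g h n k)
    _ ≤ f n k := h28_leF_inf_le f g n k

theorem leF_maxF_left (f g : ℕ → ℕ → B) : leF f (maxF f g) = ⊤ := by
  apply top_unique
  rw [h28_le_leF_iff]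
  intro n k
  exact inf_le_right.trans inf_le_left

theorem leF_maxF_right (f g : ℕ → ℕ → B) : leF g (maxF f g) = ⊤ := by
  apply top_unique
  rw [h28_le_leF_iff]
  intro n k
  exact inf_le_right.trans inf_le_right

theorem maxF_leF (f g h : ℕ → ℕ → B) : leF f h ⊓ leF g h ≤ leF (maxF f g) h := by
  rw [h28_le_leF_iff]
  intro n k
  refine le_inf ?_ ?_
  · exact (inf_le_inf_right _ inf_le_left).trans (h28_leF_inf_le f h n k)
  · exact (inf_le_inf_right _ inf_le_right).trans (h28_leF_inf_le g h n k)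

theorem leF_eq_top_iff {f g : ℕ → ℕ → B} : leF f g = ⊤ ↔ ∀ n k, g n k ≤ f n k := by
  rw [← top_le_iff, h28_le_leF_iff]
  simp only [top_inf_eq]

theorem eqN_mem (hS : IsSub S) {g : ℕ → B} (hg : ∀ k, g k ∈ S) (m : ℕ) : eqN g m ∈ S :=
  hS.inf_mem (hg m) (hS.iInf_mem fun j => hS.iInf_mem fun _ => hS.compl_mem _ (hg j))

theorem h28_eqN_le (g : ℕ → B) (m : ℕ) : eqN g m ≤ g m := inf_le_left

theorem h28_eqN_le_compl (g : ℕ → B) {m j : ℕ} (h : j < m) : eqN g m ≤ (g j)ᶜ :=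
  inf_le_right.trans ((iInf_le _ j).trans (iInf_le _ h))

theorem eqN_disjoint (g : ℕ → B) {m m' : ℕ} (h : m ≠ m') : eqN g m ⊓ eqN g m' = ⊥ := by
  rcases lt_or_gt_of_ne h with h1 | h1
  · apply le_bot_iff.1
    calc eqN g m ⊓ eqN g m' ≤ g m ⊓ (g m)ᶜ := inf_le_inf (h28_eqN_le g m) (h28_eqN_le_compl g h1)
      _ = ⊥ := inf_compl_eq_bot
  · apply le_bot_iff.1
    calc eqN g m ⊓ eqN g m' ≤ (g m')ᶜ ⊓ g m' :=
          inf_le_inf (h28_eqN_le_compl g h1) (h28_eqN_le g m')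
      _ = ⊥ := compl_inf_eq_bot

theorem iSup_eqN {g : ℕ → B} (htot : ⨆ k, g k = ⊤) : ⨆ m, eqN g m = ⊤ := by
  have key : ∀ k, g k ≤ ⨆ m, eqN g m := by
    intro k
    induction k using Nat.strong_induction_on with
    | _ k ih =>
      have h1 : (⨅ j : ℕ, ⨅ _ : j < k, (g j)ᶜ)ᶜ ≤ ⨆ m, eqN g m := by
        rw [compl_iInf]
        refine iSup_le fun j => ?_
        rw [compl_iInf]
        refine iSup_le fun hj => ?_
        rw [compl_compl]
        exact ih j hj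
      calc g k = g k ⊓ ((⨅ j : ℕ, ⨅ _ : j < k, (g j)ᶜ) ⊔ (⨅ j : ℕ, ⨅ _ : j < k, (g j)ᶜ)ᶜ) := by
            rw [sup_compl_eq_top, inf_top_eq]
        _ = eqN g k ⊔ g k ⊓ (⨅ j : ℕ, ⨅ _ : j < k, (g j)ᶜ)ᶜ := by
            rw [inf_sup_left]
            rfl
        _ ≤ ⨆ m, eqN g m := sup_le (le_iSup _ k) (inf_le_right.trans h1)
  apply top_unique
  rw [← htot]
  exact iSup_le key

theorem eqN_natN (m : ℕ) : eqN (natN m : ℕ → B) m = ⊤ := by
  apply top_unique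
  refine le_inf ?_ ?_
  · simp [natN]
  · refine le_iInf fun j => le_iInf fun hj => ?_
    have : ¬ m ≤ j := by omega
    simp [natN, this]

theorem eqN_inf {g : ℕ → B} (hmono : ∀ k, g k ≤ g (k + 1)) (m k : ℕ) :
    eqN g m ⊓ g k = if m ≤ k then eqN g m else ⊥ := by
  split_ifs with h
  · exact inf_eq_left.2 ((h28_eqN_le g m).trans (monotone_nat_of_le_succ hmono h))
  · apply le_bot_iff.1
    have h1 : k < m := by omega
    calc eqN g m ⊓ g k ≤ (g k)ᶜ ⊓ g k := inf_le_inf_right _ (h28_eqN_le_compl g h1)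
      _ = ⊥ := compl_inf_eq_bot

theorem isFn_mixF (hS : IsSub S) {a : ℕ → B} (ha : ∀ i, a i ∈ S)
    (hdisj : ∀ i j, i ≠ j → a i ⊓ a j = ⊥) (hsup : ⨆ i, a i = ⊤) {h : ℕ → ℕ → ℕ → B}
    (hh : ∀ i, IsFn S (h i)) : IsFn S (mixF a h) := by
  refine ⟨fun n k => hS.iSup_mem fun i => hS.inf_mem (ha i) ((hh i).mem n k),
    fun n k => iSup_mono fun i => inf_le_inf_left _ ((hh i).mono n k), fun n => ?_⟩
  show ⨆ k, ⨆ i, a i ⊓ h i n k = ⊤
  rw [iSup_comm]
  simp only [← inf_iSup_eq, (hh _).tot, inf_top_eq]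
  exact hsup

theorem mixF_inf {a : ℕ → B} (hdisj : ∀ i j, i ≠ j → a i ⊓ a j = ⊥) (h : ℕ → ℕ → ℕ → B)
    (i n k : ℕ) : a i ⊓ mixF a h n k = a i ⊓ h i n k := by
  apply le_antisymm
  · unfold mixF
    rw [inf_iSup_eq]
    refine iSup_le fun j => ?_
    by_cases hij : i = j
    · subst hij
      rw [← inf_assoc, inf_idem]
    · rw [← inf_assoc, hdisj i j hij, bot_inf_eq]
      exact bot_le
  · exact le_inf inf_le_left (le_iSup (fun j => a j ⊓ h j n k) i)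

theorem le_leF_mixF {a : ℕ → B} (hdisj : ∀ i j, i ≠ j → a i ⊓ a j = ⊥) (h : ℕ → ℕ → ℕ → B)
    (i : ℕ) : a i ≤ leF (mixF a h) (h i) ⊓ leF (h i) (mixF a h) := by
  refine le_inf ?_ ?_
  · rw [h28_le_leF_iff]
    intro n k
    exact le_iSup (fun j => a j ⊓ h j n k) i
  · rw [h28_le_leF_iff]
    intro n k
    rw [mixF_inf hdisj]
    exact inf_le_right

theorem extF_mixF {a : ℕ → B} (hsup : ⨆ i, a i = ⊤) {h : ℕ → ℕ → ℕ → B} {r : List ℕ}
    (hh : ∀ i, ExtF r (h i)) : ExtF r (mixF a h) := by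
  intro i hi
  funext k
  show ⨆ j, a j ⊓ h j i k = natN r[i] k
  have h1 : ∀ j, h j i k = natN r[i] k := fun j => by rw [hh j i hi]
  simp only [h1]
  rw [← iSup_inf_eq, hsup, top_inf_eq]

theorem extF_maxF {f g : ℕ → ℕ → B} {r : List ℕ} (hf : ExtF r f) (hg : ExtF r g) :
    ExtF r (maxF f g) := by
  intro i hi
  funext k
  show f i k ⊓ g i k = natN r[i] k
  rw [hf i hi, hg i hi, inf_idem]

end T1

end Pool.Agent.Helper33.HM
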