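import Pool.Agent.Helper26.PN.Main

/-!
A countably perfectly null subset of a Polish space is countably perfectly meager
(a theorem of ZFC).
-/

set_option autoImplicit false

namespace Pool.Agent.Helper33.HM

open MeasureTheory Set Pool.Agent.Helper26.PN

open scoped ENNReal Topology

universe u

/-- A nonempty relatively open piece of a perfect set in a Polish space carries a nonzero measure
vanishing on singletons, of total mass that of a fixed measure on the Cantor space. -/
theorem h28_exists_piece (lam : Measure (ℕ → Bool)) [IsFiniteMeasure lam]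
    [NullSingletonClass lam] (X : Type u) [TopologicalSpace X] [PolishSpace X]
    [MeasurableSpace X] [BorelSpace X] {P V : Set X} (hP : Perfect P) (hV : IsOpen V)
    (hne : (P ∩ V).Nonempty) :
    ∃ ν : Measure X, (∀ s, MeasurableSet s → P ∩ V ⊆ s → ν s = lam univ) ∧
      ν univ ≤ lam univ ∧ ∀ x, ν {x} = 0 := by
  let _ := TopologicalSpace.upgradeIsCompletelyMetrizable X
  obtain ⟨x, hxP, hxV⟩ := hne
  obtain ⟨C, hCn, hCc, hCV⟩ := exists_mem_nhds_isClosed_subset (hV.mem_nhds hxV)
  obtain ⟨W, hWC, hW, hxW⟩ := mem_nhds_iff.1 hCn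
  obtain ⟨h1, h2⟩ := hP.closure_nhds_inter x hxP hxW hW
  obtain ⟨f, hf, hfc, hfi⟩ := h1.exists_nat_bool_injection h2
  have h3 : closure (W ∩ P) ⊆ P ∩ V := by
    apply subset_inter
    · exact closure_minimal inter_subset_right hP.closed
    · exact (closure_minimal (inter_subset_left.trans hWC) hCc).trans hCV
  have hfm : Measurable f := hfc.measurable
  refine ⟨lam.map f, ?_, ?_, ?_⟩
  · intro s hs hPs
    rw [Measure.map_apply hfm hs]
    congr 1
    rw [eq_univ_iff_forall]
    intro t
    exact hPs (h3 (hf (mem_range_self t)))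
  · rw [Measure.map_apply hfm MeasurableSet.univ]
    exact measure_mono (subset_univ _)
  · intro y
    rw [Measure.map_apply hfm (measurableSet_singleton y)]
    apply Set.Subsingleton.measure_zero
    intro a ha b hb
    exact hfi ((show f a = y from ha).trans (show f b = y from hb).symm)

theorem PMσ_of_PNσ (X : Type u) [TopologicalSpace X] [PolishSpace X] [MeasurableSpace X]
    [BorelSpace X] (A : Set X) (h : PNσ A) : PMσ A := by
  classical
  intro P hP
  obtain ⟨lam, hl1, hl2, hl3⟩ := exists_lam
  set B := TopologicalSpace.countableBasis X with hBdef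
  have hB : TopologicalSpace.IsTopologicalBasis B := TopologicalSpace.isBasis_countableBasis X
  have hBo : ∀ V ∈ B, IsOpen V := fun V hV => TopologicalSpace.isOpen_of_mem_countableBasis hV
  have : Countable B := TopologicalSpace.countable_countableBasis X
  have h1 : ∀ i : ℕ × B, ∃ ν : Measure X,
      ((P i.1 ∩ i.2.1).Nonempty → ∀ s, MeasurableSet s → P i.1 ∩ i.2.1 ⊆ s → ν s = lam univ) ∧
      ν univ ≤ lam univ ∧ ∀ x, ν {x} = 0 := by
    intro i
    by_cases hi : (P i.1 ∩ i.2.1).Nonempty
    · obtain ⟨ν, ha, hb, hc⟩ := h28_exists_piece lam X (hP i.1) (hBo _ i.2.2) hi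
      exact ⟨ν, fun _ => ha, hb, hc⟩
    · exact ⟨0, fun h => absurd h hi, by simp, by simp⟩
  choose ν hν1 hν2 hν3 using h1
  obtain ⟨ε, hε1, hε2⟩ := ENNReal.exists_pos_sum_of_countable' (one_ne_zero : (1 : ℝ≥0∞) ≠ 0)
    (ℕ × B)
  let μ : Measure X := Measure.sum fun i => ε i • ν i
  have hμ1 : IsFiniteMeasure μ := by
    constructor
    rw [Measure.sum_apply _ MeasurableSet.univ]
    calc ∑' i, (ε i • ν i) univ ≤ ∑' i, ε i * lam univ := by
          apply ENNReal.tsum_le_tsum
          intro i
          rw [Measure.smul_apply, smul_eq_mul]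
          gcongr
          exact hν2 i
      _ = (∑' i, ε i) * lam univ := ENNReal.tsum_mul_right
      _ < ∞ := ENNReal.mul_lt_top (hε2.trans ENNReal.one_lt_top) (measure_lt_top lam _)
  have hμ2 : NullSingletonClass μ := by
    constructor
    intro x
    rw [Measure.sum_apply _ (measurableSet_singleton _), ENNReal.tsum_eq_zero]
    intro i
    rw [Measure.smul_apply, hν3 i x]
    simp
  obtain ⟨F, ⟨K, hK, rfl⟩, hAF, hF0⟩ := h μ hμ1 hμ2
  refine ⟨⋃ n, K n, ⟨K, hK, rfl⟩, hAF, ?_⟩
  intro n
  apply meagre_of_pieces (P n) K hK hB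
  intro k V hV hne hsub
  have h2 : μ (K k) = 0 := measure_mono_null (subset_iUnion K k) hF0
  rw [Measure.sum_apply _ (hK k).measurableSet, ENNReal.tsum_eq_zero] at h2
  have h3 := h2 (n, ⟨V, hV⟩)
  rw [Measure.smul_apply, hν1 (n, ⟨V, hV⟩) hne (K k) (hK k).measurableSet hsub, smul_eq_mul,
    mul_eq_zero] at h3
  rcases h3 with h3 | h3
  · exact (hε1 _).ne' h3
  · exact hl3 h3

end Pool.Agent.Helper33.HM
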